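import Pool.Agent.W761.CP.Defs

set_option autoImplicit false

open MeasureTheory
open scoped ENNReal FourierTransform SchwartzMap InnerProductSpace

namespace Pool.Agent.W804.CP
open Pool.Agent.Helper209.CX (Ed L2d)
open Pool.Agent.W761.CP

noncomputable section

/-- Lax-Milgram -/
theorem laxMilgram {E : Type} [NormedAddCommGroup E] [InnerProductSpace ℂ E] [CompleteSpace E]
    (A : E →L[ℂ] E) (c : ℝ) (hc : 0 < c) (hA : ∀ x, c * ‖x‖ ^ 2 ≤ (⟪x, A x⟫_ℂ).re) :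
    ∃ R : E →L[ℂ] E, (∀ x, A (R x) = x) ∧ ∀ x, R (A x) = x := by
  have hbd : ∀ x, c * ‖x‖ ≤ ‖A x‖ := by
    intro x
    rcases eq_or_lt_of_le (norm_nonneg x) with h | h
    · rw [← h]; simp
    · have h1 := hA x
      have h2 : (⟪x, A x⟫_ℂ).re ≤ ‖x‖ * ‖A x‖ :=
        (Complex.re_le_norm _).trans (norm_inner_le_norm _ _)
      have h3 : (c * ‖x‖) * ‖x‖ ≤ ‖A x‖ * ‖x‖ := by nlinarith
      exact le_of_mul_le_mul_right h3 h
  have hanti : AntilipschitzWith (Real.toNNReal c⁻¹) A := by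
    refine AddMonoidHomClass.antilipschitz_of_bound A ?_
    intro x
    rw [Real.coe_toNNReal _ (inv_nonneg.2 hc.le), inv_mul_eq_div, le_div_iff₀ hc, mul_comm]
    exact hbd x
  have hclosed : IsClosed ((LinearMap.range (A : E →ₗ[ℂ] E) : Submodule ℂ E) : Set E) := by
    have h1 := hanti.isClosed_range A.uniformContinuous
    have h2 : ((LinearMap.range (A : E →ₗ[ℂ] E) : Submodule ℂ E) : Set E) = Set.range A := by
      ext y; simp
    rw [h2]
    exact h1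
  have hcomp : IsComplete ((LinearMap.range (A : E →ₗ[ℂ] E) : Submodule ℂ E) : Set E) :=
    hclosed.isComplete
  haveI : CompleteSpace (LinearMap.range (A : E →ₗ[ℂ] E) : Submodule ℂ E) :=
    hcomp.completeSpace_coe
  have hrange : LinearMap.range (A : E →ₗ[ℂ] E) = ⊤ := by
    rw [← Submodule.orthogonal_eq_bot_iff, eq_bot_iff]
    intro y hy
    rw [Submodule.mem_orthogonal] at hy
    have h1 := hy (A y) ⟨y, rfl⟩
    have h2 := hA y
    have h3 : ⟪y, A y⟫_ℂ = 0 := by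
      rw [← inner_conj_symm, h1, map_zero]
    rw [h3] at h2
    have h4 : ‖y‖ ^ 2 ≤ 0 := by
      have : c * ‖y‖ ^ 2 ≤ 0 := by simpa using h2
      nlinarith [sq_nonneg ‖y‖]
    have h5 : ‖y‖ = 0 := by nlinarith [sq_nonneg ‖y‖, norm_nonneg y]
    rw [Submodule.mem_bot]
    exact norm_eq_zero.1 h5
  have hker : LinearMap.ker (A : E →ₗ[ℂ] E) = ⊥ := by
    rw [LinearMap.ker_eq_bot]
    exact hanti.injective
  let e := ContinuousLinearEquiv.ofBijective A hker hrange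
  refine ⟨e.symm, fun x => ?_, fun x => ?_⟩
  · exact ContinuousLinearEquiv.ofBijective_apply_symm_apply A hker hrange x
  · exact ContinuousLinearEquiv.ofBijective_symm_apply_apply A hker hrange x

theorem inner_star {d : ℕ} (ψ : Ed d → ℂ) (h : MemLp ψ 2 volume) (u : L2d d) :
    ⟪star (h.toLp ψ), u⟫_ℂ = ∫ x, u x * ψ x := by
  rw [L2.inner_def]
  refine integral_congr_ae ?_
  filter_upwards [Lp.coeFn_star (h.toLp ψ), h.coeFn_toLp] with x h1 h2
  rw [h1]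
  simp only [Pi.star_apply, h2, RCLike.inner_apply, RCLike.star_def, Complex.conj_conj]

theorem schw {d : ℕ} (φ : 𝓢(Ed d, ℂ)) : MemLp (fun x => φ x) 2 (volume : Measure (Ed d)) :=
  φ.memLp 2 volume

theorem schwD {d : ℕ} (φ : 𝓢(Ed d, ℂ)) (k : Fin d) :
    MemLp (fun x => fderiv ℝ (fun y => φ y) x (ev k)) 2 (volume : Measure (Ed d)) := by
  have h := (LineDeriv.lineDerivOp (ev k : Ed d) φ : 𝓢(Ed d, ℂ)).memLp 2 volume
  refine h.ae_eq ?_
  refine Filter.Eventually.of_forall fun x => ?_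
  exact SchwartzMap.lineDerivOp_apply_eq_fderiv (ev k) φ x

theorem isGrad_iff {d : ℕ} (u : L2d d) (g : Fin d → L2d d) : IsGrad u g ↔
    ∀ (φ : 𝓢(Ed d, ℂ)) (k : Fin d), ⟪star ((schwD φ k).toLp _), u⟫_ℂ +
      ⟪star ((schw φ).toLp _), g k⟫_ℂ = 0 := by
  unfold IsGrad
  refine forall_congr' fun φ => forall_congr' fun k => ?_
  rw [inner_star, inner_star, ← eq_neg_iff_add_eq_zero]

/-- the big Hilbert space -/
abbrev EE (d : ℕ) := PiLp 2 (fun _ : Option (Fin d) => L2d d)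

/-- coordinates -/
def pr {d : ℕ} (i : Option (Fin d)) : EE d →L[ℂ] L2d d :=
  PiLp.proj (𝕜 := ℂ) 2 (fun _ : Option (Fin d) => L2d d) i

theorem pr_apply {d : ℕ} (i : Option (Fin d)) (U : EE d) : pr i U = U i := rfl

/-- pairs of a function and its gradient -/
def WW (d : ℕ) : Submodule ℂ (EE d) where
  carrier := {U | IsGrad (pr none U) (fun k => pr (some k) U)}
  add_mem' := by
    intro U V hU hV
    rw [Set.mem_setOf_eq, isGrad_iff] at hU hV ⊢
    intro φ k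
    have h1 := hU φ k
    have h2 := hV φ k
    rw [map_add, map_add, inner_add_right, inner_add_right]
    linear_combination h1 + h2
  zero_mem' := by
    rw [Set.mem_setOf_eq, isGrad_iff]
    intro φ k
    rw [map_zero, map_zero, inner_zero_right, inner_zero_right, add_zero]
  smul_mem' := by
    intro c U hU
    rw [Set.mem_setOf_eq, isGrad_iff] at hU ⊢
    intro φ k
    have h1 := hU φ k
    rw [map_smul, map_smul, inner_smul_right, inner_smul_right]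
    linear_combination c * h1

theorem mem_WW {d : ℕ} (U : EE d) : U ∈ WW d ↔ IsGrad (pr none U) (fun k => pr (some k) U) :=
  Iff.rfl

theorem WW_closed (d : ℕ) : IsClosed (WW d : Set (EE d)) := by
  have h : (WW d : Set (EE d)) = ⋂ (φ : 𝓢(Ed d, ℂ)) (k : Fin d),
      {U : EE d | ⟪star ((schwD φ k).toLp _), pr none U⟫_ℂ +
        ⟪star ((schw φ).toLp _), pr (some k) U⟫_ℂ = 0} := by
    ext U
    simp only [Set.mem_iInter, Set.mem_setOf_eq]
    exact isGrad_iff _ _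
  rw [h]
  refine isClosed_iInter fun φ => isClosed_iInter fun k => ?_
  refine isClosed_eq ?_ continuous_const
  exact (continuous_const.inner (pr none).continuous).add
    (continuous_const.inner (pr (some k)).continuous)

instance (d : ℕ) : CompleteSpace (WW d) := (WW_closed d).completeSpace_coe

/-- the family -/
def fam {d : ℕ} (u : L2d d) (g : Fin d → L2d d) : Option (Fin d) → L2d d
  | none => u
  | some k => g k

/-- the element of `WW` -/
def mkW {d : ℕ} (u : L2d d) (g : Fin d → L2d d) (h : IsGrad u g) : WW d :=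
  ⟨WithLp.toLp 2 (fam u g), h⟩

def P0 (d : ℕ) : WW d →L[ℂ] L2d d := (pr none).comp (WW d).subtypeL

def Pk {d : ℕ} (k : Fin d) : WW d →L[ℂ] L2d d := (pr (some k)).comp (WW d).subtypeL

theorem grad_W {d : ℕ} (U : WW d) : IsGrad (P0 d U) (fun k => Pk k U) := U.2

theorem P0_mk {d : ℕ} (u : L2d d) (g : Fin d → L2d d) (h : IsGrad u g) : P0 d (mkW u g h) = u :=
  rfl

theorem Pk_mk {d : ℕ} (u : L2d d) (g : Fin d → L2d d) (h : IsGrad u g) (k : Fin d) :
    Pk k (mkW u g h) = g k := rfl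

theorem norm_W {d : ℕ} (U : WW d) : ‖U‖ ^ 2 = ‖P0 d U‖ ^ 2 + ∑ k, ‖Pk k U‖ ^ 2 := by
  have h : ‖U‖ = ‖(U : EE d)‖ := rfl
  rw [h, PiLp.norm_sq_eq_of_L2, Fintype.sum_option]
  rfl

/-! ### the form of the potential -/

theorem intble {d : ℕ} {V : Ed d → ℂ} (hV : FB V) {u φ : L2d d} {g g' : Fin d → L2d d}
    (hu : IsGrad u g) (hφ : IsGrad φ g') :
    Integrable (fun x => V x * u x * (starRingEnd ℂ) (φ x)) volume := by
  obtain ⟨hm, C, hC, h⟩ := hV
  have h1 := (h u g hu).1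
  have h2 := (h φ g' hφ).1
  refine Integrable.mono' (h1.add h2) ?_ ?_
  · have a1 : AEStronglyMeasurable (fun x => u x) volume := Lp.aestronglyMeasurable u
    have a2 : AEStronglyMeasurable (fun x => φ x) volume := Lp.aestronglyMeasurable φ
    exact (hm.aestronglyMeasurable.mul a1).mul
      (Complex.continuous_conj.comp_aestronglyMeasurable a2)
  · refine Filter.Eventually.of_forall fun x => ?_
    simp only [norm_mul, Pi.add_apply, RCLike.norm_conj]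
    have : 0 ≤ ‖V x‖ := norm_nonneg _
    nlinarith [sq_nonneg (‖u x‖ - ‖φ x‖), mul_nonneg this (sq_nonneg (‖u x‖ - ‖φ x‖)),
      mul_nonneg this (sq_nonneg ‖u x‖), mul_nonneg this (sq_nonneg ‖φ x‖)]

/-- the form -/
def vf {d : ℕ} (V : Ed d → ℂ) (φ u : L2d d) : ℂ := ∫ x, V x * u x * (starRingEnd ℂ) (φ x)

/-- the form as a sesquilinear map -/
def vlin {d : ℕ} (V : Ed d → ℂ) (hV : FB V) : WW d →ₗ⋆[ℂ] WW d →ₗ[ℂ] ℂ :=
  LinearMap.mk₂'ₛₗ (starRingEnd ℂ) (RingHom.id ℂ) (fun Φ U => vf V (P0 d Φ) (P0 d U))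
    (by
      intro m₁ m₂ n
      unfold vf
      rw [map_add, ← integral_add (intble hV (grad_W n) (grad_W m₁))
        (intble hV (grad_W n) (grad_W m₂))]
      refine integral_congr_ae ?_
      filter_upwards [Lp.coeFn_add (P0 d m₁) (P0 d m₂)] with x hx
      rw [hx, Pi.add_apply, map_add]
      ring)
    (by
      intro c m n
      unfold vf
      rw [map_smul, smul_eq_mul, ← integral_const_mul]
      refine integral_congr_ae ?_
      filter_upwards [Lp.coeFn_smul c (P0 d m)] with x hx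
      rw [hx, Pi.smul_apply, smul_eq_mul, map_mul]
      ring)
    (by
      intro m n₁ n₂
      unfold vf
      rw [map_add, ← integral_add (intble hV (grad_W n₁) (grad_W m))
        (intble hV (grad_W n₂) (grad_W m))]
      refine integral_congr_ae ?_
      filter_upwards [Lp.coeFn_add (P0 d n₁) (P0 d n₂)] with x hx
      rw [hx, Pi.add_apply]
      ring)
    (by
      intro c m n
      unfold vf
      rw [map_smul, RingHom.id_apply, smul_eq_mul, ← integral_const_mul]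
      refine integral_congr_ae ?_
      filter_upwards [Lp.coeFn_smul c (P0 d n)] with x hx
      rw [hx, Pi.smul_apply, smul_eq_mul]
      ring)

theorem vlin_apply {d : ℕ} (V : Ed d → ℂ) (hV : FB V) (Φ U : WW d) :
    vlin V hV Φ U = vf V (P0 d Φ) (P0 d U) := rfl

/-- bound with a parameter -/
theorem vbd1 {d : ℕ} {V : Ed d → ℂ} (hV : FB V) : ∃ C : ℝ, 0 ≤ C ∧ ∀ (Φ U : WW d) (t : ℝ),
    0 < t → ‖vlin V hV Φ U‖ ≤ C * (t * ‖U‖ ^ 2 + t⁻¹ * ‖Φ‖ ^ 2) := by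
  obtain ⟨hm, C, hC, h⟩ := id hV
  refine ⟨C, hC, fun Φ U t ht => ?_⟩
  obtain ⟨i1, b1⟩ := h _ _ (grad_W U)
  obtain ⟨i2, b2⟩ := h _ _ (grad_W Φ)
  rw [← norm_W] at b1 b2
  rw [vlin_apply]
  unfold vf
  refine (norm_integral_le_integral_norm _).trans ?_
  have h1 : ∫ x, ‖V x * (P0 d U) x * (starRingEnd ℂ) ((P0 d Φ) x)‖ ≤
      ∫ x, (t * (‖V x‖ * ‖(P0 d U) x‖ ^ 2) + t⁻¹ * (‖V x‖ * ‖(P0 d Φ) x‖ ^ 2)) := by
    refine integral_mono (intble hV (grad_W U) (grad_W Φ)).norm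
      ((i1.const_mul t).add (i2.const_mul t⁻¹)) ?_
    intro x
    simp only [norm_mul, RCLike.norm_conj]
    have hv : 0 ≤ ‖V x‖ := norm_nonneg _
    set a := ‖(P0 d U) x‖
    set b := ‖(P0 d Φ) x‖
    have ha : 0 ≤ a := norm_nonneg _
    have hb : 0 ≤ b := norm_nonneg _
    have key : a * b ≤ t * a ^ 2 + t⁻¹ * b ^ 2 := by
      have h2 : 0 ≤ t⁻¹ * (t * a - b) ^ 2 := by positivity
      have h3 : t⁻¹ * (t * a - b) ^ 2 = t * a ^ 2 - 2 * (a * b) + t⁻¹ * b ^ 2 := by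
        field_simp
        ring
      have h4 : 0 ≤ a * b := mul_nonneg ha hb
      linarith
    calc ‖V x‖ * a * b = ‖V x‖ * (a * b) := by ring
      _ ≤ ‖V x‖ * (t * a ^ 2 + t⁻¹ * b ^ 2) := mul_le_mul_of_nonneg_left key hv
      _ = _ := by ring
  refine h1.trans ?_
  rw [integral_add (i1.const_mul t) (i2.const_mul t⁻¹), integral_const_mul, integral_const_mul]
  have h5 := mul_le_mul_of_nonneg_left b1 ht.le
  have h6 := mul_le_mul_of_nonneg_left b2 (inv_nonneg.2 ht.le)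
  calc _ ≤ t * (C * ‖U‖ ^ 2) + t⁻¹ * (C * ‖Φ‖ ^ 2) := add_le_add h5 h6
    _ = _ := by ring

theorem vbd {d : ℕ} {V : Ed d → ℂ} (hV : FB V) : ∃ C : ℝ, ∀ (Φ U : WW d),
    ‖vlin V hV Φ U‖ ≤ C * ‖Φ‖ * ‖U‖ := by
  obtain ⟨C, hC, h⟩ := vbd1 hV
  refine ⟨2 * C, fun Φ U => ?_⟩
  rcases eq_or_ne U 0 with rfl | hU
  · rw [map_zero, norm_zero]
    simp
  rcases eq_or_ne Φ 0 with rfl | hΦ
  · rw [map_zero, LinearMap.zero_apply, norm_zero]
    simp
  have a0 : 0 < ‖U‖ := norm_pos_iff.2 hU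
  have b0 : 0 < ‖Φ‖ := norm_pos_iff.2 hΦ
  refine (h Φ U (‖Φ‖ / ‖U‖) (by positivity)).trans (le_of_eq ?_)
  field_simp
  ring

theorem exists_VA {d : ℕ} {V : Ed d → ℂ} (hV : FB V) : ∃ A : WW d →L[ℂ] WW d,
    ∀ Φ U : WW d, ⟪Φ, A U⟫_ℂ = vf V (P0 d Φ) (P0 d U) := by
  obtain ⟨C, hC⟩ := vbd hV
  let Bc : WW d →L⋆[ℂ] WW d →L[ℂ] ℂ := LinearMap.mkContinuous₂ (vlin V hV) C hC
  refine ⟨ContinuousLinearMap.adjoint (InnerProductSpace.continuousLinearMapOfBilin Bc), ?_⟩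
  intro Φ U
  rw [ContinuousLinearMap.adjoint_inner_right,
    InnerProductSpace.continuousLinearMapOfBilin_apply]
  rfl

theorem res : S_RES := by
  intro d h V B hh hV hre hB
  obtain ⟨AV, hAV⟩ := exists_VA hV
  let P0a : L2d d →L[ℂ] WW d := ContinuousLinearMap.adjoint (P0 d)
  let A : WW d →L[ℂ] WW d := ((h ^ 2 : ℝ) : ℂ) • (∑ k, (ContinuousLinearMap.adjoint (Pk k)).comp
    (Pk k)) + P0a.comp (P0 d) + P0a.comp (B.comp (P0 d)) + AV
  have hA : ∀ Φ U : WW d, ⟪Φ, A U⟫_ℂ = ((h ^ 2 : ℝ) : ℂ) * (∑ k, ⟪Pk k Φ, Pk k U⟫_ℂ) +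
      ⟪P0 d Φ, P0 d U⟫_ℂ + ⟪P0 d Φ, B (P0 d U)⟫_ℂ + vf V (P0 d Φ) (P0 d U) := by
    intro Φ U
    have hs : ⟪Φ, ((h ^ 2 : ℝ) : ℂ) • (∑ k, (ContinuousLinearMap.adjoint (Pk k)) (Pk k U))⟫_ℂ =
        ((h ^ 2 : ℝ) : ℂ) * (∑ k, ⟪Pk k Φ, Pk k U⟫_ℂ) := by
      have hs0 : ∀ (c : ℂ) (W1 : WW d), ⟪Φ, c • W1⟫_ℂ = c * ⟪Φ, W1⟫_ℂ :=
        fun c W1 => inner_smul_right (𝕜 := ℂ) Φ W1 c
      refine (hs0 _ _).trans ?_
      rw [inner_sum]
      simp only [ContinuousLinearMap.adjoint_inner_right]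
    simp only [A, P0a, ContinuousLinearMap.add_apply, ContinuousLinearMap.smul_apply,
      ContinuousLinearMap.sum_apply, ContinuousLinearMap.comp_apply, inner_add_right,
      ContinuousLinearMap.adjoint_inner_right, hAV]
    rw [← hs]
  have hvre : ∀ U : WW d, 0 ≤ (vf V (P0 d U) (P0 d U)).re := by
    intro U
    unfold vf
    have h1 := integral_re (𝕜 := ℂ) (intble hV (grad_W U) (grad_W U))
    have h2 : (∫ x, V x * (P0 d U) x * (starRingEnd ℂ) ((P0 d U) x)).re =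
        ∫ x, RCLike.re (V x * (P0 d U) x * (starRingEnd ℂ) ((P0 d U) x)) := h1.symm
    rw [h2]
    refine integral_nonneg fun x => ?_
    have h3 : V x * (P0 d U) x * (starRingEnd ℂ) ((P0 d U) x) =
        V x * ((‖(P0 d U) x‖ ^ 2 : ℝ) : ℂ) := by
      rw [mul_assoc, Complex.mul_conj']
      push_cast
      ring
    simp only [Pi.zero_apply]
    rw [h3]
    show 0 ≤ (V x * ((‖(P0 d U) x‖ ^ 2 : ℝ) : ℂ)).re
    rw [Complex.re_mul_ofReal]
    exact mul_nonneg (hre x) (sq_nonneg _)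
  have hself : ∀ v : L2d d, (⟪v, v⟫_ℂ).re = ‖v‖ ^ 2 := fun v => by
    rw [inner_self_eq_norm_sq_to_K]
    norm_cast
  have hAre : ∀ U : WW d, h ^ 2 * (∑ k, ‖Pk k U‖ ^ 2) + ‖P0 d U‖ ^ 2 ≤ (⟪U, A U⟫_ℂ).re := by
    intro U
    rw [hA]
    simp only [Complex.add_re, Complex.re_ofReal_mul, Complex.re_sum, hself]
    have := hvre U
    have := hB (P0 d U)
    linarith
  have hcoer : ∀ U : WW d, min (h ^ 2) 1 * ‖U‖ ^ 2 ≤ (⟪U, A U⟫_ℂ).re := by
    intro U
    refine le_trans ?_ (hAre U)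
    rw [norm_W, mul_add]
    have h1 : min (h ^ 2) 1 * ‖P0 d U‖ ^ 2 ≤ 1 * ‖P0 d U‖ ^ 2 :=
      mul_le_mul_of_nonneg_right (min_le_right _ _) (sq_nonneg _)
    have h2 : min (h ^ 2) 1 * (∑ k, ‖Pk k U‖ ^ 2) ≤ h ^ 2 * (∑ k, ‖Pk k U‖ ^ 2) :=
      mul_le_mul_of_nonneg_right (min_le_left _ _) (Finset.sum_nonneg fun k _ => sq_nonneg _)
    linarith
  obtain ⟨R, hR1, hR2⟩ := laxMilgram A (min (h ^ 2) 1) (lt_min (by positivity) one_pos) hcoer
  let T : L2d d →L[ℂ] L2d d := (P0 d).comp (R.comp P0a)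
  refine ⟨T, ?_, ?_, ?_⟩
  · intro f
    refine ⟨fun k => Pk k (R (P0a f)), grad_W _, ?_⟩
    intro φ g' hφ
    have h1 := hA (mkW φ g' hφ) (R (P0a f))
    rw [hR1] at h1
    have h2 : ⟪mkW φ g' hφ, P0a f⟫_ℂ = ⟪φ, f⟫_ℂ := by
      rw [ContinuousLinearMap.adjoint_inner_right]
      rfl
    rw [h2] at h1
    simp only [P0_mk, Pk_mk] at h1
    show ((h ^ 2 : ℝ) : ℂ) * (∑ k, ⟪g' k, Pk k (R (P0a f))⟫_ℂ) +
      vf V φ (P0 d (R (P0a f))) = ⟪φ, f - P0 d (R (P0a f)) - B (P0 d (R (P0a f)))⟫_ℂ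
    rw [inner_sub_right, inner_sub_right, h1]
    ring
  · intro u f hu
    obtain ⟨g, hg, h1⟩ := hu
    have h2 : A (mkW u g hg) = P0a f := by
      refine ext_inner_left ℂ fun Φ => ?_
      rw [hA, ContinuousLinearMap.adjoint_inner_right]
      simp only [P0_mk, Pk_mk]
      have h3 := h1 (P0 d Φ) (fun k => Pk k Φ) (grad_W Φ)
      rw [inner_sub_right, inner_sub_right] at h3
      unfold vf
      linear_combination h3
    show u = P0 d (R (P0a f))
    rw [← h2, hR2]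
    rfl
  · intro f
    set U := R (P0a f) with hU
    have h1 := hAre U
    rw [hU, hR1, ContinuousLinearMap.adjoint_inner_right, ← hU] at h1
    have h2 : (⟪P0 d U, f⟫_ℂ).re ≤ ‖P0 d U‖ * ‖f‖ :=
      (Complex.re_le_norm _).trans (norm_inner_le_norm _ _)
    have h3 : 0 ≤ h ^ 2 * (∑ k, ‖Pk k U‖ ^ 2) :=
      mul_nonneg (sq_nonneg _) (Finset.sum_nonneg fun k _ => sq_nonneg _)
    show ‖P0 d U‖ ≤ ‖f‖
    have h4 : ‖P0 d U‖ * ‖P0 d U‖ ≤ ‖P0 d U‖ * ‖f‖ := by nlinarith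
    rcases eq_or_lt_of_le (norm_nonneg (P0 d U)) with h5 | h5
    · rw [← h5]; exact norm_nonneg _
    · exact le_of_mul_le_mul_left h4 h5

end

end Pool.Agent.W804.CP
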